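import Pool.Agent.Q24.DJ.Com

/-! # Project DJ, job LB: the bounds for `log ‖G / HH‖` and its derivative -/

set_option autoImplicit false

namespace Pool.Agent.Q24.DJ

open Complex Filter Topology Metric Set
open Pool.Agent.Q260.DJ
open Pool.Agent.H24R2.JP (HH XX FF gam jensen Hyperbolic Om Par xi)

lemma cc_re (T : ℝ) : ((3 : ℂ) + I * (T : ℂ)).re = 3 := by simp
lemma cc_im (T : ℝ) : ((3 : ℂ) + I * (T : ℂ)).im = T := by simp

lemma near_cc {T ρ : ℝ} {w : ℂ} (h : ‖w - ((3 : ℂ) + I * (T : ℂ))‖ ≤ ρ) :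
    |w.re - 3| ≤ ρ ∧ |w.im - T| ≤ ρ := by
  constructor
  · have := (abs_re_le_norm (w - ((3 : ℂ) + I * (T : ℂ)))).trans h
    rwa [sub_re, cc_re] at this
  · have := (abs_im_le_norm (w - ((3 : ℂ) + I * (T : ℂ)))).trans h
    rwa [sub_im, cc_im] at this

theorem t_LB (h1 : S_HA) (h2 : S_TC) : S_LB := by
  intro G hG
  obtain ⟨hH, _⟩ := h1
  obtain ⟨Cr, Tr, hCr, hTr, hr⟩ := hG.right 1 6 (by norm_num) (by norm_num)
  obtain ⟨A, Tg, hA, hTg, hg⟩ := hG.grow (-1 / 2) 6 (by norm_num) (by norm_num)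
  obtain ⟨k, j, Cm, Tm, hCm, hTm, hm⟩ := hG.mass
  obtain ⟨C, hC, htc⟩ := h2 (max Cr 1) (le_max_right _ _)
  obtain ⟨A', hA'⟩ : ∃ A' : ℝ, A' = 2 * A + j + 1 := ⟨_, rfl⟩
  have hj : (0 : ℝ) ≤ j := j.cast_nonneg
  have hA1 : 1 ≤ A' := by rw [hA']; linarith
  refine ⟨C * A', max (max Tr Tg) (max Tm Cm) + 3, by nlinarith, ?_, ?_⟩
  · have : 3 ≤ max (max Tr Tg) (max Tm Cm) := hTr.trans ((le_max_left _ _).trans (le_max_left _ _))
    linarith
  intro T θ δ hT hθ hθ1 hδ hδ1 hnz z hz1 hz2 hz3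
  have b1 : Tr + 3 ≤ T := by
    have : Tr ≤ max (max Tr Tg) (max Tm Cm) := (le_max_left _ _).trans (le_max_left _ _)
    linarith
  have b2 : Tg + 3 ≤ T := by
    have : Tg ≤ max (max Tr Tg) (max Tm Cm) := (le_max_right _ _).trans (le_max_left _ _)
    linarith
  have b3 : Tm + 3 ≤ T := by
    have : Tm ≤ max (max Tr Tg) (max Tm Cm) := (le_max_left _ _).trans (le_max_right _ _)
    linarith
  have b4 : Cm + 3 ≤ T := by
    have : Cm ≤ max (max Tr Tg) (max Tm Cm) := (le_max_right _ _).trans (le_max_right _ _)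
    linarith
  have hT6 : 6 ≤ T := by linarith
  have hL := one_le_log (T := T) (by linarith)
  obtain ⟨c, hc⟩ : ∃ c : ℂ, c = (3 : ℂ) + I * (T : ℂ) := ⟨_, rfl⟩
  obtain ⟨ρ, hρ⟩ : ∃ ρ : ℝ, ρ = 3 - θ := ⟨_, rfl⟩
  obtain ⟨g, hgd⟩ : ∃ g : ℂ → ℂ, g = fun w => G w / HH w := ⟨_, rfl⟩
  -- points of the ball
  have hball : ∀ w ∈ ball c ρ, θ < w.re ∧ w.re < 6 ∧ |w.im - T| < 3 := by
    intro w hw
    rw [mem_ball, dist_eq_norm, hc] at hw
    obtain ⟨q1, q2⟩ := near_cc (le_refl ‖w - ((3 : ℂ) + I * (T : ℂ))‖)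
    have q3 := abs_lt.1 (q1.trans_lt hw)
    have q4 := q2.trans_lt hw
    refine ⟨by linarith [q3.1], by linarith [q3.2], by linarith⟩
  have hpos : ∀ w ∈ ball c ρ, T - 3 < w.im ∧ w.im < T + 3 := by
    intro w hw
    have := abs_lt.1 (hball w hw).2.2
    constructor <;> linarith [this.1, this.2]
  have hne : ∀ w ∈ ball c ρ, G w ≠ 0 := by
    intro w hw
    obtain ⟨p1, p2, p3⟩ := hball w hw
    obtain ⟨p4, p5⟩ := hpos w hw
    rcases le_or_gt w.re 2 with h | h
    · exact hnz w p1 h (by linarith)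
    · exact (hr w (by linarith) (by linarith) (by linarith)).1
  have hHne : ∀ w ∈ ball c ρ, AnalyticAt ℂ HH w ∧ HH w ≠ 0 := by
    intro w hw
    obtain ⟨p4, p5⟩ := hpos w hw
    exact hH w (by linarith)
  have hgne : ∀ w ∈ ball c ρ, g w ≠ 0 := by
    intro w hw
    rw [hgd]
    exact div_ne_zero (hne w hw) (hHne w hw).2
  have hGan : ∀ w ∈ ball c ρ, AnalyticAt ℂ G w := by
    intro w hw
    obtain ⟨p4, p5⟩ := hpos w hw
    exact hG.an w (by linarith)
  have hgdiff : DifferentiableOn ℂ g (ball c ρ) := by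
    intro w hw
    rw [hgd]
    exact ((hGan w hw).differentiableAt.div (hHne w hw).1.differentiableAt
      (hHne w hw).2).differentiableWithinAt
  have hld : ∀ w ∈ ball c ρ, logDeriv g w = logDeriv G w - logDeriv HH w := by
    intro w hw
    rw [hgd]
    exact logDeriv_div w (hne w hw) (hHne w hw).2 (hGan w hw).differentiableAt
      (hHne w hw).1.differentiableAt
  have hρ2 : 2 ≤ ρ := by rw [hρ]; linarith
  have hρ3 : ρ ≤ 3 := by rw [hρ]; linarith
  have hcb : c ∈ ball c ρ := mem_ball_self (by linarith)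
  -- lower bound at the centre
  have hgc : Real.exp (-((j + 1) * Real.log T)) ≤ ‖g c‖ := by
    have h3 := (hm T (by linarith)).1
    have h4 : ‖g c‖ = ‖G (3 + I * T)‖ / ‖HH (3 + I * T)‖ := by
      rw [hgd, hc]
      simp only [norm_div]
    rw [h4]
    refine le_trans ?_ h3
    have h5 : Real.exp (-((j + 1) * Real.log T)) = 1 / T ^ j / T := by
      rw [Real.exp_neg, add_mul, Real.exp_add, one_mul, Real.exp_log (by linarith), mul_comm (j : ℝ),
        ← Real.rpow_def_of_pos (by linarith), Real.rpow_natCast]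
      field_simp
    rw [h5]
    have h6 : 1 ≤ Real.log T ^ k := one_le_pow₀ hL
    have h7 : 1 / T ^ j ≤ Real.log T ^ k / T ^ j :=
      div_le_div_of_nonneg_right h6 (by positivity)
    calc 1 / T ^ j / T ≤ 1 / T ^ j / Cm :=
          div_le_div_of_nonneg_left (by positivity) (by linarith) (by linarith)
      _ ≤ _ := div_le_div_of_nonneg_right h7 (by linarith)
  -- the upper bound
  have hup : ∀ w ∈ ball c ρ, ‖g w‖ ≤ Real.exp (A' * Real.log T) * ‖g c‖ := by
    intro w hw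
    obtain ⟨p1, p2, p3⟩ := hball w hw
    obtain ⟨p4, p5⟩ := hpos w hw
    have h3 := hg w (by linarith) (by linarith) (by linarith)
    have h4 : ‖g w‖ ≤ Real.exp (A * Real.log w.im) := by
      rw [hgd]
      simp only [norm_div]
      rw [div_le_iff₀ (norm_pos_iff.2 (hHne w hw).2)]
      exact h3
    have h5 : Real.log w.im ≤ 2 * Real.log T := log_double hT6 (by linarith) (by linarith)
    have h6 : Real.exp (A * Real.log w.im) ≤ Real.exp (2 * A * Real.log T) := by
      apply Real.exp_le_exp.2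
      nlinarith
    calc ‖g w‖ ≤ Real.exp (2 * A * Real.log T) := h4.trans h6
      _ = Real.exp (A' * Real.log T) * Real.exp (-((j + 1) * Real.log T)) := by
          rw [← Real.exp_add, hA']
          congr 1
          ring
      _ ≤ _ := mul_le_mul_of_nonneg_left hgc (Real.exp_pos _).le
  have hsmall : ∀ w ∈ closedBall c 1, ‖logDeriv g w‖ ≤ max Cr 1 := by
    intro w hw
    have hwb : w ∈ ball c ρ := closedBall_subset_ball (by linarith) hw
    rw [hld w hwb]
    rw [mem_closedBall, dist_eq_norm, hc] at hw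
    obtain ⟨q1, q2⟩ := near_cc hw
    have q3 := abs_le.1 q1
    have q4 := abs_le.1 q2
    exact (hr w (by linarith [q3.1]) (by linarith [q3.2]) (by linarith [q4.1])).2.trans
      (le_max_left _ _)
  have hM1 : 1 ≤ A' * Real.log T := by nlinarith
  have hzc : ‖z - c‖ ≤ ρ - δ := by
    have e : z - c = ((z.re - 3 : ℝ) : ℂ) := by
      apply Complex.ext
      · rw [hc, sub_re, cc_re, ofReal_re]
      · rw [hc, sub_im, cc_im, ofReal_im, hz1, sub_self]
    rw [e, Complex.norm_real, Real.norm_eq_abs, abs_le, hρ]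
    constructor <;> linarith
  have hzb : z ∈ ball c ρ := by
    rw [mem_ball, dist_eq_norm]
    linarith
  obtain ⟨r1, r2⟩ := htc g c ρ δ (A' * Real.log T) hρ2 hρ3 hδ hδ1 hM1 hgdiff hgne hup hsmall z hzc
  have hE : C / δ ^ 2 * (A' * Real.log T) ^ (1 - δ / C) ≤ EE (C * A') T δ := by
    have hA0 : 0 < A' := by linarith
    have hC0 : 0 < C := by linarith
    unfold EE
    rw [Real.mul_rpow hA0.le (by linarith)]
    have hdc : δ / C ≤ 1 := by
      rw [div_le_one hC0]
      linarith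
    have hdc0 : 0 ≤ δ / C := by positivity
    have e1 : A' ^ (1 - δ / C) ≤ A' := by
      calc A' ^ (1 - δ / C) ≤ A' ^ (1 : ℝ) :=
            Real.rpow_le_rpow_of_exponent_le hA1 (by linarith)
        _ = A' := Real.rpow_one _
    have e2 : Real.log T ^ (1 - δ / C) ≤ Real.log T ^ (1 - δ / (C * A')) := by
      apply Real.rpow_le_rpow_of_exponent_le hL
      have : δ / (C * A') ≤ δ / C :=
        div_le_div_of_nonneg_left hδ.le hC0 (by nlinarith)
      linarith
    calc C / δ ^ 2 * (A' ^ (1 - δ / C) * Real.log T ^ (1 - δ / C))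
        ≤ C / δ ^ 2 * (A' * Real.log T ^ (1 - δ / (C * A'))) := by
          apply mul_le_mul_of_nonneg_left _ (by positivity)
          exact mul_le_mul e1 e2 (Real.rpow_nonneg (by linarith) _) hA0.le
      _ = C * A' / δ ^ 2 * Real.log T ^ (1 - δ / (C * A')) := by ring
  refine ⟨hne z hzb, ?_, ?_⟩
  · have hposz : 0 < ‖G z‖ / ‖HH z‖ :=
      div_pos (norm_pos_iff.2 (hne z hzb)) (norm_pos_iff.2 (hHne z hzb).2)
    have hposc : 0 < ‖G (3 + I * T)‖ / ‖HH (3 + I * T)‖ := by
      have := hne c hcb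
      have h3 := (hHne c hcb).2
      rw [hc] at this h3
      exact div_pos (norm_pos_iff.2 this) (norm_pos_iff.2 h3)
    rw [← Real.log_div hposz.ne' hposc.ne']
    have e1 : ‖g z‖ / ‖g c‖ = ‖G z‖ / ‖HH z‖ / (‖G (3 + I * T)‖ / ‖HH (3 + I * T)‖) := by
      rw [hgd, hc]
      simp only [norm_div]
    rw [← e1]
    exact r1.trans hE
  · rw [← hld z hzb]
    exact r2.trans hE

end Pool.Agent.Q24.DJ
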