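import Pool.Agent.Q24.DJ.Com
import Pool.Agent.H24R2.JP.B1
import Pool.Agent.H24R2.JP.Zeros

/-! # Project DJ, jobs DI and RA: the dictionary and the rate -/

set_option autoImplicit false

namespace Pool.Agent.Q24.DJ

open Complex Filter Topology Metric Set
open Pool.Agent.Q260.DJ
open Pool.Agent.H24R2.JP (HH XX FF gam jensen Hyperbolic Om Par xi)

/-- A constant `δ` is admissible for large heights. -/
lemma ok_const {C δ : ℝ} (hC : 1 ≤ C) (hδ : 0 < δ) (hδ1 : δ ≤ 1 / 2) :
    ∃ T0 : ℝ, 6 ≤ T0 ∧ ∀ T : ℝ, T0 ≤ T → Ok C T δ := by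
  have h1 : Tendsto (fun T : ℝ => Real.log T ^ (δ / C)) atTop atTop :=
    (tendsto_rpow_atTop (by positivity : 0 < δ / C)).comp Real.tendsto_log_atTop
  obtain ⟨T1, hT1⟩ := eventually_atTop.1 (h1.eventually_ge_atTop (C / δ ^ 3))
  exact ⟨max 6 T1, le_max_left _ _, fun T hT =>
    ⟨hδ, hδ1, hT1 T ((le_max_right _ _).trans hT)⟩⟩

theorem t_DI (h1 : S_UP) (h2 : S_DN) : S_DI := by
  intro l ε hε
  obtain ⟨C1, T1, hC1, hT1, h3⟩ := h1 l 0
  obtain ⟨C2, T2, hC2, hT2, h4⟩ := h2 l 0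
  obtain ⟨δ, hδd⟩ : ∃ δ : ℝ, δ = min (1 / 2) (ε / (2 * (C1 + C2))) := ⟨_, rfl⟩
  have hδ : 0 < δ := by
    rw [hδd]
    apply lt_min (by norm_num)
    positivity
  have hδ1 : δ ≤ 1 / 2 := by rw [hδd]; exact min_le_left _ _
  have hδ2 : (C1 + C2) * δ ≤ ε / 2 := by
    have h5 : δ ≤ ε / (2 * (C1 + C2)) := by rw [hδd]; exact min_le_right _ _
    calc (C1 + C2) * δ ≤ (C1 + C2) * (ε / (2 * (C1 + C2))) :=
          mul_le_mul_of_nonneg_left h5 (by linarith)
      _ = ε / 2 := by
          have : C1 + C2 ≠ 0 := by positivity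
          field_simp
  obtain ⟨T3, hT3, h5⟩ := ok_const hC1 hδ hδ1
  obtain ⟨T4, hT4, h6⟩ := ok_const hC2 hδ hδ1
  have hC1δ : 0 < C1 * δ := by positivity
  have hC2δ : 0 < C2 * δ := by positivity
  refine ⟨C1 + C2, max (max T1 T2) (max T3 T4), by linarith,
    hT1.trans ((le_max_left _ _).trans (le_max_left _ _)), ?_, ?_⟩
  · intro z σ hz hT hσ hσz
    have a1 : T1 ≤ z.im := ((le_max_left _ _).trans (le_max_left _ _)).trans hT
    have a3 : T3 ≤ z.im := ((le_max_left _ _).trans (le_max_right _ _)).trans hT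
    have hre := Pool.Agent.H24R2.JP.Zer.re_le z hz
    have hL := one_le_log (hT1.trans a1)
    by_contra hcon
    push Not at hcon
    have hnz : NZ (It l) σ z.im (C1 * Real.log z.im) := by
      intro w hw1 hw2 hw3 hw0
      have := hcon w hw0 hw1
      nlinarith
    have h7 := h3 z.im σ δ a1 hσ (by nlinarith) (h5 z.im a3) hnz z (by nlinarith) (by linarith)
      (by simp)
    exact h7 hz
  · intro z σ hz hT hσ hσz hre
    have a2 : T2 ≤ z.im := ((le_max_right _ _).trans (le_max_left _ _)).trans hT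
    have a4 : T4 ≤ z.im := ((le_max_right _ _).trans (le_max_right _ _)).trans hT
    by_contra hcon
    push Not at hcon
    have hnz : NZ XX σ z.im C2 := by
      intro w hw1 hw2 hw3 hw0
      have := hcon w hw0 hw1
      linarith
    have h7 := h4 z.im σ δ a2 hσ (by nlinarith) (h6 z.im a4) hnz z (by nlinarith) (by linarith)
      (by simp)
    exact h7 hz

lemma lll_small (c : ℝ) (hc : 0 < c) : ∃ T0 : ℝ, 6 ≤ T0 ∧ ∀ T : ℝ, T0 ≤ T →
    1 ≤ Real.log (Real.log (Real.log T)) ∧ 1 ≤ Real.log (Real.log T) ∧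
    Real.log (Real.log (Real.log T)) / Real.log (Real.log T) ≤ c := by
  have t1 : Tendsto (fun T : ℝ => Real.log (Real.log T)) atTop atTop :=
    Real.tendsto_log_atTop.comp Real.tendsto_log_atTop
  have t2 : Tendsto (fun T : ℝ => Real.log (Real.log (Real.log T))) atTop atTop :=
    Real.tendsto_log_atTop.comp t1
  have h := Real.isLittleO_log_id_atTop.def hc
  obtain ⟨T1, hT1⟩ := eventually_atTop.1 ((t1.eventually h).and
    ((t2.eventually_ge_atTop 1).and (t1.eventually_ge_atTop 1)))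
  refine ⟨max 6 T1, le_max_left _ _, fun T hT => ?_⟩
  obtain ⟨q1, q2, q3⟩ := hT1 T ((le_max_right _ _).trans hT)
  refine ⟨q2, q3, ?_⟩
  rw [id, Real.norm_of_nonneg (by linarith), Real.norm_of_nonneg (by linarith)] at q1
  rw [div_le_iff₀ (by linarith)]
  exact q1

theorem t_RA (h : S_UP) : S_RA := by
  intro l T1 hfree
  obtain ⟨C1, T0, hC1, hT0, hup⟩ := h l 0
  obtain ⟨T2, hT2, h2⟩ := lll_small (1 / (20 * C1 ^ 2)) (by positivity)
  obtain ⟨T3, hT3, h3⟩ := log_small C1 (by linarith)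
  have hC0 : 0 < C1 := by linarith
  refine ⟨max (10 * C1 ^ 2) (max (max T0 T2) (max T3 (2 * T1))),
    lt_of_lt_of_le (by positivity : (0 : ℝ) < 10 * C1 ^ 2) (le_max_left _ _), ?_⟩
  -- the bound on one side
  have key : ∀ z : ℂ, XX z = 0 →
      max (10 * C1 ^ 2) (max (max T0 T2) (max T3 (2 * T1))) ≤ z.im →
      z.re ≤ max (10 * C1 ^ 2) (max (max T0 T2) (max T3 (2 * T1))) *
        (Real.log (Real.log (Real.log z.im)) / Real.log (Real.log z.im)) := by
    intro z hz hT
    have hT' : max (max T0 T2) (max T3 (2 * T1)) ≤ z.im := (le_max_right _ _).trans hT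
    have a0 : T0 ≤ z.im := ((le_max_left _ _).trans (le_max_left _ _)).trans hT'
    have a2 : T2 ≤ z.im := ((le_max_right _ _).trans (le_max_left _ _)).trans hT'
    have a3 : T3 ≤ z.im := ((le_max_left _ _).trans (le_max_right _ _)).trans hT'
    have a4 : 2 * T1 ≤ z.im := ((le_max_right _ _).trans (le_max_right _ _)).trans hT'
    obtain ⟨q1, q2, q3⟩ := h2 z.im a2
    obtain ⟨a, ha⟩ : ∃ a : ℝ, a = Real.log (Real.log z.im) := ⟨_, rfl⟩
    obtain ⟨b, hb⟩ : ∃ b : ℝ, b = Real.log a := ⟨_, rfl⟩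
    rw [← ha] at q1 q2 q3
    rw [← hb] at q1 q3
    rw [← ha, ← hb]
    have ha0 : 0 < a := by linarith
    have hb0 : 0 < b := by linarith
    have hba : 0 ≤ b / a := by positivity
    have hlog := one_le_log (T := z.im) (by linarith)
    obtain ⟨δ, hδd⟩ : ∃ δ : ℝ, δ = 10 * C1 * (b / a) := ⟨_, rfl⟩
    have hδ : 0 < δ := by rw [hδd]; positivity
    have hδ2 : C1 * δ ≤ 1 / 2 := by
      calc C1 * δ = 10 * C1 ^ 2 * (b / a) := by rw [hδd]; ring
        _ ≤ 10 * C1 ^ 2 * (1 / (20 * C1 ^ 2)) := mul_le_mul_of_nonneg_left q3 (by positivity)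
        _ = 1 / 2 := by field_simp; norm_num
    have hδ1 : δ ≤ 1 / 2 := by nlinarith
    have hok : Ok C1 z.im δ := by
      refine ⟨hδ, hδ1, ?_⟩
      have e1 : Real.log z.im ^ (δ / C1) = a ^ 10 := by
        rw [Real.rpow_def_of_pos (by linarith), ← ha, hδd]
        have e2 : a * (10 * C1 * (b / a) / C1) = 10 * b := by field_simp
        rw [e2, hb, show (10 : ℝ) * Real.log a = Real.log (a ^ 10) by
          rw [Real.log_pow]; norm_num, Real.exp_log (by positivity)]
      rw [e1]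
      have e3 : C1 / δ ^ 3 ≤ a ^ 3 := by
        rw [div_le_iff₀ (by positivity)]
        have e4 : a ^ 3 * δ ^ 3 = (10 * C1 * b) ^ 3 := by
          rw [← mul_pow, hδd]
          congr 1
          field_simp
        rw [e4]
        have e5 : C1 ≤ 10 * C1 * b := by nlinarith
        have e6 : 1 ≤ 10 * C1 * b := by nlinarith
        calc C1 ≤ 10 * C1 * b := e5
          _ = (10 * C1 * b) ^ 1 := (pow_one _).symm
          _ ≤ (10 * C1 * b) ^ 3 := pow_le_pow_right₀ e6 (by norm_num)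
      exact e3.trans (pow_le_pow_right₀ q2 (by norm_num))
    have hnz : NZ (It l) 0 z.im (C1 * Real.log z.im) := by
      intro w hw1 hw2 hw3
      apply hfree w hw1
      have := h3 z.im a3
      have h4 := (abs_le.1 hw3).1
      linarith
    have hfin := hup z.im 0 δ a0 le_rfl (by linarith) hok hnz
    by_contra hcon
    push Not at hcon
    refine hfin z ?_ ?_ (by simp) hz
    · calc 0 + C1 * δ = 10 * C1 ^ 2 * (b / a) := by rw [hδd]; ring
        _ ≤ max (10 * C1 ^ 2) (max (max T0 T2) (max T3 (2 * T1))) * (b / a) :=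
            mul_le_mul_of_nonneg_right (le_max_left _ _) hba
        _ < z.re := hcon
    · have := Pool.Agent.H24R2.JP.Zer.re_le z hz
      linarith
  intro z hz hT
  rw [abs_le]
  refine ⟨?_, key z hz hT⟩
  have hz2 : XX (-(starRingEnd ℂ) z) = 0 := by
    rw [Pool.Agent.H24R2.JP.B1h.XX_neg, Pool.Agent.H24R2.JP.B1h.XX_conj, hz, map_zero]
  have e : (-(starRingEnd ℂ) z).im = z.im := by simp
  have h5 := key (-(starRingEnd ℂ) z) hz2 (by rw [e]; exact hT)
  rw [e] at h5
  simp only [neg_re, conj_re] at h5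
  linarith

end Pool.Agent.Q24.DJ
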