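import Pool.Agent.Q260.DJ.Stm

/-! # Project DJ: common facts on `Ok` and `EE` -/

set_option autoImplicit false

namespace Pool.Agent.Q24.DJ

open Complex Filter Topology Metric Set
open Pool.Agent.Q260.DJ
open Pool.Agent.H24R2.JP (HH XX FF gam jensen Hyperbolic Om Par xi)

lemma one_le_log {T : ℝ} (hT : 3 ≤ T) : 1 ≤ Real.log T := by
  rw [Real.le_log_iff_exp_le (by linarith)]
  linarith [Real.exp_one_lt_d9]

/-- The error term is small against `log T`. -/
lemma ee_le {C C1 T δ : ℝ} (hC1 : 1 ≤ C1) (hC : C1 ≤ C) (hT : 3 ≤ T) (h : Ok C T δ) :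
    EE C1 T δ ≤ C1 / C * δ * Real.log T := by
  obtain ⟨h1, h2, h3⟩ := h
  have hL := one_le_log hT
  have hL0 : 0 < Real.log T := by linarith
  have hC0 : 0 < C := by linarith
  have hC10 : 0 < C1 := by linarith
  have e1 : Real.log T ^ (1 - δ / C1) ≤ Real.log T ^ (1 - δ / C) := by
    apply Real.rpow_le_rpow_of_exponent_le hL
    have : δ / C ≤ δ / C1 := div_le_div_of_nonneg_left h1.le hC10 hC
    linarith
  have e2 : Real.log T ^ (1 - δ / C) = Real.log T / Real.log T ^ (δ / C) := by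
    rw [Real.rpow_sub hL0, Real.rpow_one]
  have e3 : Real.log T / Real.log T ^ (δ / C) ≤ Real.log T / (C / δ ^ 3) :=
    div_le_div_of_nonneg_left hL0.le (by positivity) h3
  have e4 : Real.log T / (C / δ ^ 3) = δ ^ 3 / C * Real.log T := by
    field_simp
  unfold EE
  calc C1 / δ ^ 2 * Real.log T ^ (1 - δ / C1) ≤ C1 / δ ^ 2 * (δ ^ 3 / C * Real.log T) := by
        apply mul_le_mul_of_nonneg_left _ (by positivity)
        rw [← e4]
        exact (e1.trans (e2.le)).trans e3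
    _ = C1 / C * δ * Real.log T := by
        field_simp

lemma log_half {T T' : ℝ} (hT : 6 ≤ T) (h1 : T / 2 ≤ T') : Real.log T / 2 ≤ Real.log T' := by
  have h3 : Real.log T - Real.log 2 ≤ Real.log T' := by
    rw [← Real.log_div (by linarith) (by norm_num)]
    exact Real.log_le_log (by linarith) h1
  have h4 : 2 * Real.log 2 ≤ Real.log T := by
    rw [show 2 * Real.log 2 = Real.log (2 ^ 2) by rw [Real.log_pow]; norm_num]
    exact Real.log_le_log (by norm_num) (by linarith)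
  linarith

lemma log_double {T T' : ℝ} (hT : 6 ≤ T) (h0 : 0 < T') (h1 : T' ≤ 2 * T) :
    Real.log T' ≤ 2 * Real.log T := by
  have h3 : Real.log T' ≤ Real.log 2 + Real.log T := by
    rw [← Real.log_mul (by norm_num) (by linarith)]
    exact Real.log_le_log h0 h1
  have h4 : Real.log 2 ≤ Real.log T := Real.log_le_log (by norm_num) (by linarith)
  linarith

/-- `Ok` at neighbouring heights. -/
lemma ok_near {C C1 T T' δ : ℝ} (hC1 : 1 ≤ C1) (hC : 2 * C1 ≤ C) (hT : 6 ≤ T)
    (hT' : T / 2 ≤ T') (h : Ok C T δ) : Ok C1 T' δ := by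
  obtain ⟨h1, h2, h3⟩ := h
  have hL' : 1 ≤ Real.log T' := one_le_log (by linarith)
  have hL := one_le_log (T := T) (by linarith)
  refine ⟨h1, h2, ?_⟩
  have hC0 : 0 < C := by linarith
  have hC10 : 0 < C1 := by linarith
  have e1 : Real.log T' ^ (δ / C) ≤ Real.log T' ^ (δ / C1) := by
    apply Real.rpow_le_rpow_of_exponent_le hL'
    exact div_le_div_of_nonneg_left h1.le hC10 (by linarith)
  have e2 : (Real.log T / 2) ^ (δ / C) ≤ Real.log T' ^ (δ / C) :=
    Real.rpow_le_rpow (by linarith) (log_half hT hT') (by positivity)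
  have e3 : (Real.log T / 2) ^ (δ / C) = Real.log T ^ (δ / C) * (1 / 2 : ℝ) ^ (δ / C) := by
    rw [← Real.mul_rpow (by linarith) (by norm_num)]
    congr 1
    ring
  have e4 : (1 / 2 : ℝ) ≤ (1 / 2 : ℝ) ^ (δ / C) := by
    have : (1 / 2 : ℝ) ^ (1 : ℝ) ≤ (1 / 2 : ℝ) ^ (δ / C) := by
      apply Real.rpow_le_rpow_of_exponent_ge (by norm_num) (by norm_num)
      rw [div_le_one hC0]
      linarith
    simpa using this
  have e5 : C / δ ^ 3 * (1 / 2) ≤ Real.log T ^ (δ / C) * (1 / 2 : ℝ) ^ (δ / C) :=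
    mul_le_mul h3 e4 (by norm_num) (by positivity)
  have e6 : C1 / δ ^ 3 ≤ C / δ ^ 3 * (1 / 2) := by
    rw [div_mul_eq_mul_div]
    apply div_le_div_of_nonneg_right _ (by positivity)
    linarith
  calc C1 / δ ^ 3 ≤ C / δ ^ 3 * (1 / 2) := e6
    _ ≤ _ := e5
    _ = _ := e3.symm
    _ ≤ _ := e2
    _ ≤ _ := e1

lemma nz_mono {G : ℂ → ℂ} {θ θ' T T' X X' : ℝ} (h : NZ G θ T X) (h1 : θ ≤ θ')
    (h2 : |T' - T| + X' ≤ X) : NZ G θ' T' X' := by
  intro z hz1 hz2 hz3
  apply h z (by linarith) hz2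
  calc |z.im - T| = |(z.im - T') + (T' - T)| := by ring_nf
    _ ≤ |z.im - T'| + |T' - T| := abs_add_le _ _
    _ ≤ X := by linarith

/-- All the iterates belong to the class. -/
lemma cl_It (h1 : S_C0) (h2 : S_CD) : ∀ l : List Bool, Cl (It l)
  | [] => h1
  | b :: l => h2 b (It l) (cl_It h1 h2 l)

lemma log_small (K : ℝ) (hK : 0 ≤ K) : ∃ T0 : ℝ, 6 ≤ T0 ∧ ∀ T : ℝ, T0 ≤ T → K * Real.log T ≤ T / 2 := by
  have h := Real.isLittleO_log_id_atTop.def (c := 1 / (2 * (K + 1))) (by positivity)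
  obtain ⟨T1, hT1⟩ := eventually_atTop.1 h
  refine ⟨max 6 T1, le_max_left _ _, fun T hT => ?_⟩
  have h6 : 6 ≤ T := (le_max_left _ _).trans hT
  have h2 := hT1 T ((le_max_right _ _).trans hT)
  have hL := one_le_log (T := T) (by linarith)
  rw [Real.norm_of_nonneg (by linarith), id, Real.norm_of_nonneg (by linarith)] at h2
  calc K * Real.log T ≤ (K + 1) * Real.log T := by nlinarith
    _ ≤ (K + 1) * (1 / (2 * (K + 1)) * T) := by
        apply mul_le_mul_of_nonneg_left h2 (by linarith)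
    _ = T / 2 := by field_simp

end Pool.Agent.Q24.DJ
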