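import Pool.Agent.Q24.DJ.Com

/-! # Project DJ, job FW: one step forwards -/

set_option autoImplicit false

namespace Pool.Agent.Q24.DJ

open Complex Filter Topology Metric Set
open Pool.Agent.Q260.DJ
open Pool.Agent.H24R2.JP (HH XX FF gam jensen Hyperbolic Om Par xi)

theorem t_FW (h1 : S_HA) (h2 : S_LB) : S_FW := by
  intro b F hF
  obtain ⟨_, C2, T2, hC2, hT2, hb⟩ := h1
  obtain ⟨C1, T1, hC1, hT1, hl⟩ := h2 F hF
  refine ⟨4 * C1, max (max T1 T2) (Real.exp (8 * C2)), by linarith,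
    hT1.trans ((le_max_left _ _).trans (le_max_left _ _)), ?_⟩
  intro T θ δ hT hθ hθ1 hok hnz z hz1 hz2 hz3
  have a1 : T1 ≤ T := ((le_max_left _ _).trans (le_max_left _ _)).trans hT
  have a2 : T2 ≤ T := ((le_max_right _ _).trans (le_max_left _ _)).trans hT
  have a3 : Real.exp (8 * C2) ≤ T := (le_max_right _ _).trans hT
  have hT3 : 3 ≤ T := hT1.trans a1
  have a4 : 8 * C2 ≤ Real.log T := (Real.le_log_iff_exp_le (by linarith)).2 a3
  obtain ⟨hz4, _, hz5⟩ := hl T θ δ a1 hθ hθ1 hok.1 hok.2.1 hnz z hz1 hz2 (by linarith)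
  have hz6 := (hb z (by linarith [hok.1]) (by linarith) (by rw [hz1]; exact a2)).1
  have e1 := ee_le hC1 (by linarith : C1 ≤ 4 * C1) hT3 hok
  have e2 : C1 / (4 * C1) * δ * Real.log T ≤ Real.log T / 8 := by
    have : C1 / (4 * C1) = 1 / 4 := by
      have : C1 ≠ 0 := by positivity
      field_simp
    rw [this]
    nlinarith [hok.2.1, one_le_log hT3]
  have hld : logDeriv F z ≠ 0 := by
    intro h0
    have h3 : ‖((Om z.im : ℝ) : ℂ)‖ ≤ ‖logDeriv F z - logDeriv HH z‖ +
        ‖logDeriv HH z - (Om z.im : ℂ)‖ := by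
      have e : ((Om z.im : ℝ) : ℂ) = -((logDeriv F z - logDeriv HH z) +
        (logDeriv HH z - (Om z.im : ℂ))) := by rw [h0]; ring
      calc ‖((Om z.im : ℝ) : ℂ)‖ = ‖(logDeriv F z - logDeriv HH z) +
            (logDeriv HH z - (Om z.im : ℂ))‖ := by
            rw [← norm_neg ((logDeriv F z - logDeriv HH z) + (logDeriv HH z - (Om z.im : ℂ))), ← e]
        _ ≤ _ := norm_add_le _ _
    rw [Complex.norm_real, hz1] at h3
    have h4 : Om T = Real.log T / 2 := rfl
    rw [h4, Real.norm_of_nonneg (by linarith [one_le_log hT3])] at h3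
    rw [hz1] at hz6
    rw [h4] at hz6
    linarith [one_le_log hT3]
  have hd : deriv F z ≠ 0 := by
    intro h0
    apply hld
    rw [logDeriv_apply, h0, zero_div]
  have hz0 : z ≠ 0 := by
    rintro rfl
    simp at hz1
    linarith
  unfold Op
  cases b
  · simpa using hd
  · simp [hd, hz0]

end Pool.Agent.Q24.DJ
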