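import Pool.Agent.Q260.DJ.Stm

/-! # Project DJ, job HB: decay of `HH` upwards and comparison at nearby points -/

set_option autoImplicit false

namespace Pool.Agent.Q24.DJ

open Complex Filter Topology Metric Set
open Pool.Agent.Q260.DJ
open Pool.Agent.H24R2.JP (HH XX FF gam jensen Hyperbolic Om Par xi)

lemma im_line (x t : ℝ) : ((x : ℂ) + I * ((t : ℝ) : ℂ)).im = t := by simp
lemma re_line (x t : ℝ) : ((x : ℂ) + I * ((t : ℝ) : ℂ)).re = x := by simp

theorem t_HB (h : S_HA) : S_HB := by
  obtain ⟨hA, C, T0, hC, hT0, hb⟩ := h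
  refine ⟨2 + 2 * C, T0 + 2, by linarith, by linarith, ?_, ?_⟩
  · intro x t v hx1 hx2 ht hv
    -- the square of the norm
    obtain ⟨f, hf⟩ : ∃ f : ℝ → ℂ, f = fun s => HH (x + I * ((t + s : ℝ) : ℂ)) := ⟨_, rfl⟩
    have hfd : ∀ s : ℝ, 0 ≤ s → HasDerivAt f (I * logDeriv HH (x + I * ((t + s : ℝ) : ℂ)) * f s) s := by
      intro s hs
      have hz : 0 < ((x : ℂ) + I * ((t + s : ℝ) : ℂ)).im := by rw [im_line]; linarith
      obtain ⟨h1, h2⟩ := hA _ hz
      have h3 : HasDerivAt (fun s : ℝ => (x : ℂ) + I * ((t + s : ℝ) : ℂ)) I s := by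
        have h4 : HasDerivAt (fun s : ℝ => ((t + s : ℝ) : ℂ)) 1 s := by
          have h5 : HasDerivAt (fun s : ℝ => t + s) 1 s := by
            simpa using (hasDerivAt_id s).const_add t
          simpa using h5.ofReal_comp
        simpa using (h4.const_mul I).const_add (x : ℂ)
      have h6 := h1.differentiableAt.hasDerivAt.comp s h3
      have e : deriv HH (x + I * ((t + s : ℝ) : ℂ)) * I =
          I * logDeriv HH (x + I * ((t + s : ℝ) : ℂ)) * f s := by
        rw [logDeriv_apply, hf]
        field_simp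
      rw [← e, hf]
      exact h6
    obtain ⟨g, hg⟩ : ∃ g : ℝ → ℝ, g = fun s => ‖f s‖ ^ 2 * Real.exp s := ⟨_, rfl⟩
    have hgd : ∀ s : ℝ, 0 ≤ s → ∃ g' : ℝ, HasDerivAt g g' s ∧ g' ≤ 0 := by
      intro s hs
      have h1 := (hfd s hs).norm_sq
      have h2 := h1.mul (Real.hasDerivAt_exp s)
      refine ⟨_, by rw [hg]; exact h2, ?_⟩
      have h3 : inner ℝ (f s) (I * logDeriv HH (x + I * ((t + s : ℝ) : ℂ)) * f s) =
          -(logDeriv HH (x + I * ((t + s : ℝ) : ℂ))).im * ‖f s‖ ^ 2 := by
        rw [Complex.inner, ← Complex.normSq_eq_norm_sq]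
        simp only [mul_re, mul_im, conj_re, conj_im, I_re, I_im, Complex.normSq_apply]
        ring
      rw [h3]
      have h4 := (hb (x + I * ((t + s : ℝ) : ℂ)) (by rw [re_line]; exact hx1)
        (by rw [re_line]; exact hx2) (by rw [im_line]; linarith)).2.1
      have h5 : 0 ≤ ‖f s‖ ^ 2 * Real.exp s := by positivity
      nlinarith
    have hanti : AntitoneOn g (Ici 0) := by
      apply antitoneOn_of_deriv_nonpos (convex_Ici 0)
      · intro s hs
        obtain ⟨g', h1, _⟩ := hgd s hs
        exact h1.continuousAt.continuousWithinAt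
      · intro s hs
        rw [interior_Ici] at hs
        obtain ⟨g', h1, _⟩ := hgd s (le_of_lt hs)
        exact h1.differentiableAt.differentiableWithinAt
      · intro s hs
        rw [interior_Ici] at hs
        obtain ⟨g', h1, h2⟩ := hgd s (le_of_lt hs)
        rw [h1.deriv]
        exact h2
    have h1 := hanti (mem_Ici.2 le_rfl) (mem_Ici.2 hv) hv
    rw [hg] at h1
    simp only [Real.exp_zero, mul_one] at h1
    have e0 : f 0 = HH (x + I * t) := by rw [hf]; simp
    have ev : f v = HH (x + I * ((t + v : ℝ) : ℂ)) := by rw [hf]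
    rw [e0, ev] at h1
    have h2 : (‖HH (x + I * ((t + v : ℝ) : ℂ))‖) ^ 2 ≤ (Real.exp (-v / 2) * ‖HH (x + I * t)‖) ^ 2 := by
      have e1 : Real.exp (-v / 2) ^ 2 * Real.exp v = 1 := by
        rw [← Real.exp_nat_mul, ← Real.exp_add]
        rw [show (2 : ℕ) * (-v / 2) + v = 0 by push_cast; ring, Real.exp_zero]
      have e2 : Real.exp (-v / 2) ^ 2 * (‖HH (x + I * ((t + v : ℝ) : ℂ))‖ ^ 2 * Real.exp v) =
          ‖HH (x + I * ((t + v : ℝ) : ℂ))‖ ^ 2 := by
        calc _ = ‖HH (x + I * ((t + v : ℝ) : ℂ))‖ ^ 2 * (Real.exp (-v / 2) ^ 2 * Real.exp v) := by ring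
          _ = _ := by rw [e1, mul_one]
      rw [← e2, mul_pow]
      exact mul_le_mul_of_nonneg_left h1 (by positivity)
    exact (pow_le_pow_iff_left₀ (norm_nonneg _) (by positivity) two_ne_zero).1 h2
  · intro z w hz1 hz2 hw1 hw2 hT hzw
    have hTp : 0 < z.im := by linarith
    have hl1 : 1 ≤ Real.log z.im := by
      rw [Real.le_log_iff_exp_le hTp]
      linarith [Real.exp_one_lt_d9]
    obtain ⟨f, hf⟩ : ∃ f : ℝ → ℂ, f = fun s : ℝ => HH (z + (s : ℂ) * (w - z)) := ⟨_, rfl⟩
    have him : ∀ s : ℝ, 0 ≤ s → s ≤ 1 → z.im - 2 ≤ (z + s * (w - z)).im ∧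
        (z + s * (w - z)).im ≤ z.im + 2 := by
      intro s hs0 hs1
      have h1 : |(w - z).im| ≤ 2 := (abs_im_le_norm _).trans hzw
      have h2 : (z + s * (w - z)).im = z.im + s * (w - z).im := by simp
      rw [h2]
      rw [abs_le] at h1
      constructor <;> nlinarith
    have hre : ∀ s : ℝ, 0 ≤ s → s ≤ 1 → -1 ≤ (z + s * (w - z)).re ∧
        (z + s * (w - z)).re ≤ 40 := by
      intro s hs0 hs1
      have h2 : (z + s * (w - z)).re = (1 - s) * z.re + s * w.re := by simp; ring
      rw [h2]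
      constructor <;> nlinarith
    have hfd : ∀ s : ℝ, 0 ≤ s → s ≤ 1 →
        HasDerivAt f ((w - z) * logDeriv HH (z + s * (w - z)) * f s) s := by
      intro s hs0 hs1
      have hz : 0 < (z + s * (w - z)).im := by linarith [(him s hs0 hs1).1]
      obtain ⟨h1, h2⟩ := hA _ hz
      have h3 : HasDerivAt (fun s : ℝ => z + (s : ℂ) * (w - z)) (w - z) s := by
        have h4 : HasDerivAt (fun s : ℝ => (s : ℂ)) 1 s := by
          simpa using (hasDerivAt_id s).ofReal_comp
        simpa using (h4.mul_const (w - z)).const_add z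
      have h6 := h1.differentiableAt.hasDerivAt.comp s h3
      have e : deriv HH (z + s * (w - z)) * (w - z) =
          (w - z) * logDeriv HH (z + s * (w - z)) * f s := by
        rw [logDeriv_apply, hf]
        field_simp
      rw [← e, hf]
      exact h6
    have hK : ∀ s ∈ Ico (0 : ℝ) 1, ‖(w - z) * logDeriv HH (z + s * (w - z)) * f s‖ ≤
        ((2 + 2 * C) * Real.log z.im) * ‖f s‖ + 0 := by
      intro s hs
      obtain ⟨i1, i2⟩ := him s hs.1 hs.2.le
      obtain ⟨r1, r2⟩ := hre s hs.1 hs.2.le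
      have h1 := (hb _ r1 r2 (by linarith)).1
      have h2 : ‖logDeriv HH (z + s * (w - z))‖ ≤ Real.log z.im + C := by
        have h3 : ‖logDeriv HH (z + s * (w - z))‖ ≤ ‖(Om (z + s * (w - z)).im : ℂ)‖ + C := by
          have e : logDeriv HH (z + s * (w - z)) = (logDeriv HH (z + s * (w - z)) -
            (Om (z + s * (w - z)).im : ℂ)) + (Om (z + s * (w - z)).im : ℂ) := by ring
          rw [e]
          refine (norm_add_le _ _).trans ?_
          linarith
        have h4 : ‖(Om (z + s * (w - z)).im : ℂ)‖ ≤ Real.log z.im := by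
          rw [norm_real, Real.norm_eq_abs]
          unfold Om
          have h5 : 0 ≤ Real.log (z + s * (w - z)).im := Real.log_nonneg (by linarith)
          rw [abs_of_nonneg (by linarith)]
          have h6 : Real.log (z + s * (w - z)).im ≤ Real.log (z.im ^ 2) := by
            apply Real.log_le_log (by linarith)
            nlinarith
          rw [Real.log_pow] at h6
          push_cast at h6
          linarith
        linarith
      rw [norm_mul, norm_mul, add_zero]
      apply mul_le_mul_of_nonneg_right _ (norm_nonneg _)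
      have h7 : ‖w - z‖ * ‖logDeriv HH (z + s * (w - z))‖ ≤ 2 * (Real.log z.im + C) :=
        mul_le_mul hzw h2 (norm_nonneg _) (by norm_num)
      nlinarith
    have h1 := norm_le_gronwallBound_of_norm_deriv_right_le (f := f)
      (f' := fun s => (w - z) * logDeriv HH (z + s * (w - z)) * f s) (δ := ‖f 0‖)
      (K := (2 + 2 * C) * Real.log z.im) (ε := 0) (a := 0) (b := 1)
      (fun s hs => (hfd s hs.1 hs.2).continuousAt.continuousWithinAt)
      (fun s hs => (hfd s hs.1 hs.2.le).hasDerivWithinAt) le_rfl hK 1 (by simp)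
    rw [gronwallBound_ε0] at h1
    have e0 : f 0 = HH z := by rw [hf]; simp
    have e1 : f 1 = HH w := by rw [hf]; simp
    rw [e0, e1, sub_zero, mul_one, mul_comm] at h1
    exact h1

end Pool.Agent.Q24.DJ
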