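import Pool.Agent.Q260.DJ.Stm

/-! # Project DJ, job OD: a linear ODE estimate -/

set_option autoImplicit false

namespace Pool.Agent.Q24.DJ

open Complex Filter Topology Metric Set
open Pool.Agent.Q260.DJ

theorem t_OD : S_OD := by
  intro u q a b L η U hab hL hη0 hη hu _ hq hU x hx
  have hLne : (L : ℂ) ≠ 0 := by exact_mod_cast hL.ne'
  have hiL : 0 < 1 / L := by positivity
  obtain ⟨w, hw⟩ : ∃ w : ℝ → ℂ, w = fun x => u x - 1 / (L : ℂ) := ⟨_, rfl⟩
  have hwd : ∀ x ∈ Icc a b, HasDerivAt w (-(q x) * w x + (1 - q x / L)) x := by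
    intro x hx
    have h1 := (hu x hx).sub_const (1 / (L : ℂ))
    have e : -(q x) * w x + (1 - q x / L) = 1 - q x * u x := by
      rw [hw]
      simp only
      field_simp
      ring
    rw [e, hw]
    exact h1
  obtain ⟨v, hv⟩ : ∃ v : ℝ → ℂ, v = fun x => Real.exp (L * (x - a)) • w x := ⟨_, rfl⟩
  have hed : ∀ (c x : ℝ), HasDerivAt (fun x => Real.exp (c * (x - a))) (c * Real.exp (c * (x - a))) x := by
    intro c x
    have h1 : HasDerivAt (fun x : ℝ => c * (x - a)) (c * 1) x :=
      ((hasDerivAt_id x).sub_const a).const_mul c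
    have h2 := h1.exp
    rw [mul_one, mul_comm] at h2
    exact h2
  have hvd : ∀ x ∈ Icc a b, HasDerivAt v
      (Real.exp (L * (x - a)) • (-(q x) * w x + (1 - q x / L)) +
        (L * Real.exp (L * (x - a))) • w x) x := by
    intro x hx
    rw [hv]
    exact (hed L x).smul (hwd x hx)
  have hvn : ∀ x, ‖v x‖ = Real.exp (L * (x - a)) * ‖w x‖ := by
    intro x
    rw [hv]
    simp only
    rw [norm_smul, Real.norm_eq_abs, abs_of_pos (Real.exp_pos _)]
  have hwa : ‖w a‖ ≤ U + 1 / L := by
    rw [hw]
    simp only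
    refine (norm_sub_le _ _).trans ?_
    have : ‖(1 : ℂ) / (L : ℂ)‖ = 1 / L := by
      rw [norm_div, norm_one, norm_real, Real.norm_eq_abs, abs_of_pos hL]
    rw [this]
    linarith
  have hW0 : 0 ≤ U + 1 / L := (norm_nonneg _).trans hwa
  have hvb : ∀ x ∈ Icc a b, ‖Real.exp (L * (x - a)) • (-(q x) * w x + (1 - q x / L)) +
        (L * Real.exp (L * (x - a))) • w x‖ ≤ η * L * ‖v x‖ + η * Real.exp (L * (x - a)) := by
    intro x hx
    have e1 : Real.exp (L * (x - a)) • (-(q x) * w x + (1 - q x / L)) +
        (L * Real.exp (L * (x - a))) • w x =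
        Real.exp (L * (x - a)) • ((-(q x - L)) * w x + (-(q x - L)) / L) := by
      simp only [real_smul]
      push_cast
      field_simp
      ring
    rw [e1, norm_smul, Real.norm_eq_abs, abs_of_pos (Real.exp_pos _), hvn]
    have h1 := hq x hx
    have h2 : ‖(-(q x - L)) * w x + (-(q x - L)) / L‖ ≤ η * L * ‖w x‖ + η := by
      refine (norm_add_le _ _).trans ?_
      rw [norm_mul, norm_div, norm_neg, norm_real, Real.norm_eq_abs, abs_of_pos hL]
      have h3 : ‖q x - L‖ / L ≤ η := by
        rw [div_le_iff₀ hL]; exact h1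
      have h4 := mul_le_mul_of_nonneg_right h1 (norm_nonneg (w x))
      linarith
    have h3 := mul_le_mul_of_nonneg_left h2 (Real.exp_pos (L * (x - a))).le
    linarith
  -- the comparison
  have key : ∀ ε : ℝ, 0 < ε → ‖v x‖ ≤ Real.exp (L / 2 * (x - a)) * (U + 1 / L) +
      2 * η / L * Real.exp (L * (x - a)) + ε * Real.exp (2 * L * (x - a)) := by
    intro ε hε
    have hB : ∀ x, HasDerivAt (fun x => Real.exp (L / 2 * (x - a)) * (U + 1 / L) +
        2 * η / L * Real.exp (L * (x - a)) + ε * Real.exp (2 * L * (x - a)))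
        (L / 2 * Real.exp (L / 2 * (x - a)) * (U + 1 / L) +
        2 * η / L * (L * Real.exp (L * (x - a))) + ε * (2 * L * Real.exp (2 * L * (x - a)))) x := by
      intro x
      exact (((hed (L / 2) x).mul_const _).add ((hed L x).const_mul _)).add
        ((hed (2 * L) x).const_mul _)
    refine image_norm_le_of_norm_deriv_right_lt_deriv_boundary
      (f := v) (f' := fun x => Real.exp (L * (x - a)) • (-(q x) * w x + (1 - q x / L)) +
        (L * Real.exp (L * (x - a))) • w x) (a := a) (b := b)
      (fun y hy => (hvd y hy).continuousAt.continuousWithinAt)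
      (fun y hy => (hvd y (Ico_subset_Icc_self hy)).hasDerivWithinAt) ?_ hB ?_ hx
    · simp only [sub_self, mul_zero, Real.exp_zero, one_mul, mul_one]
      rw [hvn, sub_self, mul_zero, Real.exp_zero, one_mul]
      have : 0 ≤ 2 * η / L := by positivity
      linarith
    · intro y hy hyB
      have h1 := hvb y (Ico_subset_Icc_self hy)
      refine lt_of_le_of_lt h1 ?_
      rw [hyB]
      have e1 := Real.exp_pos (L / 2 * (y - a))
      have e2 := Real.exp_pos (L * (y - a))
      have e3 := Real.exp_pos (2 * L * (y - a))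
      have f1 : η * L * (Real.exp (L / 2 * (y - a)) * (U + 1 / L)) ≤
          L / 2 * Real.exp (L / 2 * (y - a)) * (U + 1 / L) := by
        have : 0 ≤ Real.exp (L / 2 * (y - a)) * (U + 1 / L) * L := by positivity
        nlinarith
      have f2 : η * L * (2 * η / L * Real.exp (L * (y - a))) + η * Real.exp (L * (y - a)) ≤
          2 * η / L * (L * Real.exp (L * (y - a))) := by
        have g1 : η * L * (2 * η / L * Real.exp (L * (y - a))) =
            2 * η * η * Real.exp (L * (y - a)) := by field_simp
        have g2 : 2 * η / L * (L * Real.exp (L * (y - a))) = 2 * η * Real.exp (L * (y - a)) := by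
          field_simp
        rw [g1, g2]
        have : 0 ≤ η * Real.exp (L * (y - a)) := by positivity
        nlinarith
      have f3 : η * L * (ε * Real.exp (2 * L * (y - a))) <
          ε * (2 * L * Real.exp (2 * L * (y - a))) := by
        have : 0 < ε * Real.exp (2 * L * (y - a)) * L := by positivity
        nlinarith
      linarith
  have key0 : ‖v x‖ ≤ Real.exp (L / 2 * (x - a)) * (U + 1 / L) +
      2 * η / L * Real.exp (L * (x - a)) := by
    apply le_of_forall_pos_le_add
    intro δ hδ
    have e3 := Real.exp_pos (2 * L * (x - a))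
    have h1 := key (δ / Real.exp (2 * L * (x - a))) (by positivity)
    rw [div_mul_cancel₀ _ e3.ne'] at h1
    exact h1
  have h1 : ‖u x - 1 / (L : ℂ)‖ = ‖w x‖ := by rw [hw]
  rw [h1]
  rw [hvn] at key0
  have e2 := Real.exp_pos (L * (x - a))
  have h2 : ‖w x‖ * Real.exp (L * (x - a)) ≤ (Real.exp (-(L / 2) * (x - a)) * (U + 1 / L) +
      2 * η / L) * Real.exp (L * (x - a)) := by
    have e3 : Real.exp (-(L / 2) * (x - a)) * Real.exp (L * (x - a)) =
        Real.exp (L / 2 * (x - a)) := by
      rw [← Real.exp_add]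
      congr 1
      ring
    calc ‖w x‖ * Real.exp (L * (x - a)) = Real.exp (L * (x - a)) * ‖w x‖ := mul_comm _ _
      _ ≤ _ := key0
      _ = _ := by rw [← e3]; ring
  exact le_of_mul_le_mul_right h2 e2

end Pool.Agent.Q24.DJ
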