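import Pool.Agent.Q24.DJ.Com

/-! # Project DJ, jobs UP and DN: induction over the steps -/

set_option autoImplicit false

namespace Pool.Agent.Q24.DJ

open Complex Filter Topology Metric Set
open Pool.Agent.Q260.DJ
open Pool.Agent.H24R2.JP (HH XX FF gam jensen Hyperbolic Om Par xi)

theorem t_UP (h1 : S_C0) (h2 : S_CD) (h3 : S_BK) : S_UP := by
  intro l
  induction l with
  | nil =>
    intro X
    refine ⟨max 1 X, 3, le_max_left _ _, le_rfl, ?_⟩
    intro T θ δ hT hθ hθ1 hok hnz
    have hL := one_le_log hT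
    have hC : 1 ≤ max 1 X := le_max_left _ _
    refine nz_mono hnz ?_ ?_
    · have := mul_nonneg (by linarith : (0 : ℝ) ≤ max 1 X) hok.1.le
      linarith
    · rw [sub_self, abs_zero, zero_add]
      exact mul_le_mul_of_nonneg_right (le_max_right _ _) (by linarith)
  | cons b l ih =>
    intro X
    obtain ⟨C2, T2, hC2, hT2, h4⟩ := ih X
    have hcl := cl_It h1 h2 l
    obtain ⟨C1, T1, hC1, hT1, h5⟩ := h3 b (It l) hcl (h2 b (It l) hcl)
    obtain ⟨T3, hT3, h6⟩ := log_small C2 (by linarith)
    refine ⟨4 * (C1 + C2), max (max (2 * T1) T2) T3, by linarith,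
      hT2.trans ((le_max_right _ _).trans (le_max_left _ _)), ?_⟩
    intro T θ δ hT hθ hθ1 hok hnz
    have a1 : 2 * T1 ≤ T := ((le_max_left _ _).trans (le_max_left _ _)).trans hT
    have a2 : T2 ≤ T := ((le_max_right _ _).trans (le_max_left _ _)).trans hT
    have a3 : T3 ≤ T := (le_max_right _ _).trans hT
    have a4 : 6 ≤ T := hT3.trans a3
    have hL := one_le_log (T := T) (by linarith)
    have a5 := h6 T a3
    have hδ := hok.1
    have hC2δ : 0 ≤ C2 * δ := mul_nonneg (by linarith) hδ.le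
    have hC1δ : 0 ≤ (C1 - 1) * δ := mul_nonneg (by linarith) hδ.le
    have hnz2 : NZ (It l) (θ + 3 * δ) T (C2 * Real.log T) := by
      intro z hz1 hz2 hz3
      have hz4 : T / 2 ≤ z.im := by linarith [(abs_le.1 hz3).1]
      have hz5 : z.im ≤ 2 * T := by linarith [(abs_le.1 hz3).2]
      have hok' : Ok C1 z.im δ := ok_near hC1 (by linarith) a4 hz4 hok
      refine h5 z.im θ δ (by linarith) hθ (by nlinarith) hok' ?_ z rfl hz1.le hz2
      have hl := log_double a4 (by linarith) hz5
      refine nz_mono hnz le_rfl ?_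
      have : C1 * Real.log z.im ≤ C1 * (2 * Real.log T) :=
        mul_le_mul_of_nonneg_left hl (by linarith)
      nlinarith
    have hok2 : Ok C2 T δ := ok_near hC2 (by linarith) a4 (by linarith) hok
    have h7 := h4 T (θ + 3 * δ) δ a2 (by linarith) (by nlinarith) hok2 hnz2
    refine nz_mono h7 (by nlinarith) ?_
    rw [sub_self, abs_zero, zero_add]

theorem t_DN (h1 : S_C0) (h2 : S_CD) (h3 : S_FW) : S_DN := by
  intro l
  induction l with
  | nil =>
    intro X
    refine ⟨max 1 X, 3, le_max_left _ _, le_rfl, ?_⟩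
    intro T θ δ hT hθ hθ1 hok hnz
    have hC : 1 ≤ max 1 X := le_max_left _ _
    refine nz_mono hnz ?_ ?_
    · have := mul_nonneg (by linarith : (0 : ℝ) ≤ max 1 X) hok.1.le
      linarith
    · rw [sub_self, abs_zero, zero_add]
      exact le_max_right _ _
  | cons b l ih =>
    intro X
    obtain ⟨C2, T2, hC2, hT2, h4⟩ := ih (X + 4)
    have hcl := cl_It h1 h2 l
    obtain ⟨C1, T1, hC1, hT1, h5⟩ := h3 b (It l) hcl
    refine ⟨4 * (C1 + C2), max (max (2 * T1) T2) (max 6 (2 * X)), by linarith,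
      hT2.trans ((le_max_right _ _).trans (le_max_left _ _)), ?_⟩
    intro T θ δ hT hθ hθ1 hok hnz
    have a1 : 2 * T1 ≤ T := ((le_max_left _ _).trans (le_max_left _ _)).trans hT
    have a2 : T2 ≤ T := ((le_max_right _ _).trans (le_max_left _ _)).trans hT
    have a3 : 2 * X ≤ T := ((le_max_right _ _).trans (le_max_right _ _)).trans hT
    have a4 : 6 ≤ T := ((le_max_left _ _).trans (le_max_right _ _)).trans hT
    have hδ := hok.1
    have hC2δ : 0 ≤ C2 * δ := mul_nonneg (by linarith) hδ.le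
    have hC1δ : 0 ≤ (C1 - 1) * δ := mul_nonneg (by linarith) hδ.le
    have hok2 : Ok C2 T δ := ok_near hC2 (by linarith) a4 (by linarith) hok
    have hnz2 : NZ (It l) (θ + C2 * δ) T (X + 4) := by
      refine h4 T θ δ a2 hθ (by nlinarith) hok2 (nz_mono hnz le_rfl ?_)
      rw [sub_self, abs_zero, zero_add]
      linarith
    intro z hz1 hz2 hz3
    have hz4 : T / 2 ≤ z.im := by linarith [(abs_le.1 hz3).1]
    have hok' : Ok C1 z.im δ := ok_near hC1 (by linarith) a4 hz4 hok
    refine h5 z.im (θ + C2 * δ) δ (by linarith) (by linarith) (by nlinarith) hok' ?_ z rfl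
      (by nlinarith) hz2
    refine nz_mono hnz2 le_rfl ?_
    linarith

end Pool.Agent.Q24.DJ
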